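import Pool.Agent.H83.V.T3

/-!
Theorem V (`MP_34b97f_an`, `MP_c59857_nt`): rows W2 and W5, the averages of the mismatches in
windows and the frequency of the mismatches.
-/

set_option autoImplicit false

open MeasureTheory ProbabilityTheory Filter Topology Finset
open scoped Nat ENNReal

namespace Pool.Agent.H84.V

open Pool.Agent.H83.V
open Pool.Agent.H67.AG (avgP ul Inv Rt Av SA kap JJ TT InvZ nxt triv tow XN PN TN XX PX TX prX Fac)
open Pool.Agent.H28.LF (Wd La Cd dm ds)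

lemma meas_mm (c : Vx) : Measurable c.mm := by
  classical
  have h : MeasurableSet {p : c.X × c.X | c.a p.1 = c.a p.2} :=
    measurableSet_eq_fun (c.am.comp measurable_fst) (c.am.comp measurable_snd)
  exact Measurable.ite h measurable_const measurable_const

lemma abs_mm (c : Vx) (p : c.X × c.X) : |c.mm p| ≤ 1 := by
  classical
  unfold Vx.mm
  split_ifs <;> simp

lemma meas_Av (c : Vx) (n : ℕ) : Measurable (Av (TT c.T) 1 n c.mm) := by
  unfold Pool.Agent.H67.AG.Av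
  refine Measurable.div_const (Finset.measurable_sum _ fun l _ => ?_) _
  exact (meas_mm c).comp ((TT c.T).measurable.iterate _)

lemma abs_Av (c : Vx) (n : ℕ) (p : c.X × c.X) : |Av (TT c.T) 1 n c.mm p| ≤ 1 := by
  unfold Pool.Agent.H67.AG.Av
  rw [abs_div, Nat.abs_cast]
  refine div_le_one_of_le₀ ?_ (Nat.cast_nonneg n)
  refine (abs_sum_le_sum_abs _ _).trans ?_
  refine (sum_le_sum fun l _ => abs_mm c _).trans ?_
  simp

lemma meas_wa (c : Vx) (l n : ℕ) : Measurable (c.wa l n) :=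
  (meas_Av c n).comp ((TT c.T).measurable.iterate l)

/-- the exceptional set of a window -/
def WS (c : Vx) (l n : ℕ) : Set (c.X × c.X) := {p | c.ulo < |c.wa l n p - c.M p|}

lemma meas_WS (hM : T_MB) (c : Vx) (l n : ℕ) : MeasurableSet (WS c l n) := by
  have h : Measurable fun p => |c.wa l n p - c.M p| := ((meas_wa c l n).sub (hM c).1).abs
  exact h measurableSet_Ioi

lemma WS_eq (hM : T_MB) (c : Vx) (l n : ℕ) : WS c l n = (TT c.T)^[l] ⁻¹' WS c 0 n := by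
  have h : ∀ (l : ℕ) (p : c.X × c.X), c.M ((TT c.T)^[l] p) = c.M p := by
    intro l
    induction l with
    | zero => intro p; rfl
    | succ l ih =>
      intro p
      rw [Function.iterate_succ_apply, ih, (hM c).2.1]
  ext p
  change c.ulo < |c.wa l n p - c.M p| ↔
    c.ulo < |c.wa 0 n ((TT c.T)^[l] p) - c.M ((TT c.T)^[l] p)|
  rw [h l p]
  rfl

lemma facs (hJ2 : Pool.Agent.H67.AG.T_J2) (c : Vx) (Z : SA c.X) :
    Fac (JJ c.μ Z) (TT c.T) c.μ c.T Prod.fst ∧ Fac (JJ c.μ Z) (TT c.T) c.μ c.T Prod.snd :=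
  ⟨⟨(hJ2 c.X c.μ Z).2.1, fun _ => rfl⟩, ⟨(hJ2 c.X c.μ Z).2.2.1, fun _ => rfl⟩⟩

theorem pf_W2 (hM : T_MB) (hN : T_NUM) (hJ2 : Pool.Agent.H67.AG.T_J2)
    (hJ3 : Pool.Agent.H67.AG.T_J3) (hME : Pool.Agent.H67.AG.T_ME) : T_W2 := by
  intro c Z θ hZ hθ
  have hprob : IsProbabilityMeasure (JJ c.μ Z) := (hJ2 c.X c.μ Z).1
  have hmp : MeasurePreserving (TT c.T) (JJ c.μ Z) (JJ c.μ Z) :=
    (hJ3 c.X c.μ c.T Z c.erg.toMeasurePreserving hZ).1
  have hulo : 0 < c.ulo := (hN c).2.1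
  have h1 := hME (c.X × c.X) (JJ c.μ Z) (TT c.T) 1 c.mm hmp (meas_mm c) (abs_mm c)
  have h2 : (JJ c.μ Z)[c.mm | Inv (TT c.T) 1] =ᵐ[JJ c.μ Z] c.M :=
    (hM c).2.2.2.2 (c.X × c.X) (JJ c.μ Z) (TT c.T) Prod.fst Prod.snd hmp (facs hJ2 c Z).1
      (facs hJ2 c Z).2
  have h3 : Tendsto (fun n => ∫ p, (Av (TT c.T) 1 n c.mm p - c.M p) ^ 2 ∂(JJ c.μ Z)) atTop
      (𝓝 0) := by
    refine h1.congr fun n => integral_congr_ae ?_
    filter_upwards [h2] with p hp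
    rw [hp]
  have hpos : 0 < c.ulo ^ 2 * θ := by positivity
  obtain ⟨Λ₀, hΛ⟩ := eventually_atTop.1 (h3.eventually (gt_mem_nhds hpos))
  refine ⟨Λ₀, fun Λ hl l => ?_⟩
  change (JJ c.μ Z).real (WS c l Λ) ≤ θ
  rw [WS_eq hM c l Λ, measureReal_def, (hmp.iterate l).measure_preimage
    (meas_WS hM c 0 Λ).nullMeasurableSet, ← measureReal_def]
  have hint : Integrable (fun p => (Av (TT c.T) 1 Λ c.mm p - c.M p) ^ 2) (JJ c.μ Z) := by
    refine Integrable.of_bound (C := 4) ?_ ?_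
    · exact (((meas_Av c Λ).sub (hM c).1).pow_const 2).aestronglyMeasurable
    · refine Eventually.of_forall fun p => ?_
      have a1 := abs_le.1 (abs_Av c Λ p)
      have a2 := (hM c).2.2.1 p.1 p.2 p.1
      have a3 : 0 ≤ c.M p := a2.1
      have a4 : c.M p ≤ 1 := a2.2.1
      rw [Real.norm_eq_abs, abs_of_nonneg (sq_nonneg _)]
      nlinarith [a1.1, a1.2]
  have h4 := mul_meas_ge_le_integral_of_nonneg
    (Eventually.of_forall fun p => sq_nonneg (Av (TT c.T) 1 Λ c.mm p - c.M p)) hint (c.ulo ^ 2)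
  have h5 : (JJ c.μ Z).real (WS c 0 Λ) ≤
      (JJ c.μ Z).real {p | c.ulo ^ 2 ≤ (Av (TT c.T) 1 Λ c.mm p - c.M p) ^ 2} := by
    refine measureReal_mono fun p hp => ?_
    have h6 : c.ulo < |Av (TT c.T) 1 Λ c.mm p - c.M p| := hp
    change c.ulo ^ 2 ≤ (Av (TT c.T) 1 Λ c.mm p - c.M p) ^ 2
    rw [← sq_abs (Av (TT c.T) 1 Λ c.mm p - c.M p)]
    exact pow_le_pow_left₀ hulo.le h6.le 2
  have h7 := hΛ Λ hl
  have h8 : c.ulo ^ 2 * (JJ c.μ Z).real (WS c 0 Λ) ≤ c.ulo ^ 2 * θ :=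
    (mul_le_mul_of_nonneg_left h5 (by positivity)).trans (h4.trans h7.le)
  exact le_of_mul_le_mul_left h8 (by positivity)

theorem pf_W5 (hP : Pool.Agent.H40.AG.T_PXL) (hN : Pool.Agent.H40.AG.T_PNL) (hG : T_GAP)
    (hM : T_MB) (hJ2 : Pool.Agent.H67.AG.T_J2) (hJ3 : Pool.Agent.H67.AG.T_J3) : T_W5 := by
  classical
  intro c Z Λ l n R _ θ hZ hfst hsnd hθ1 hθ2 hθ3
  have hprob : IsProbabilityMeasure (JJ c.μ Z) := (hJ2 c.X c.μ Z).1
  have hmp : MeasurePreserving (TT c.T) (JJ c.μ Z) (JJ c.μ Z) :=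
    (hJ3 c.X c.μ c.T Z c.erg.toMeasurePreserving hZ).1
  have hp := hP c.X c.μ Z (n + 1) R hfst hsnd
  have : IsProbabilityMeasure (PX c.μ Z (n + 1) R) := hp.1
  have hq := (hN c.X c.μ Z (n + 1)).2.2.2.2
  have hθ0 : 0 ≤ θ := le_trans measureReal_nonneg hθ1
  set G : Set (c.X × c.X) := {p | c.ulo < c.M p ∧ c.M p ≤ c.uh} with hGd
  have hGm : MeasurableSet G := (hM c).1 measurableSet_Ioc
  have hG0 : (JJ c.μ Z).real G = 0 := by
    have h1 := hG c (c.X × c.X) (JJ c.μ Z) (TT c.T) Prod.fst Prod.snd hmp (facs hJ2 c Z).1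
      (facs hJ2 c Z).2
    rw [measureReal_def, ENNReal.toReal_eq_zero_iff]
    left
    have h2 : (JJ c.μ Z) {p | ¬ ¬ (c.ulo < c.M (p.1, p.2) ∧ c.M (p.1, p.2) ≤ c.uh)} = 0 := h1
    refine measure_mono_null (fun p hp => ?_) h2
    exact not_not.2 hp
  set S : Set (c.X × c.X) := (WS c 0 Λ ∪ WS c l (Λ - l)) ∪ (WS c l Λ ∪ G) with hS
  have hSm : MeasurableSet S :=
    ((meas_WS hM c 0 Λ).union (meas_WS hM c l (Λ - l))).union ((meas_WS hM c l Λ).union hGm)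
  have hSθ : (JJ c.μ Z).real S ≤ 3 * θ := by
    refine (measureReal_union_le _ _).trans ?_
    have a1 := measureReal_union_le (μ := JJ c.μ Z) (WS c 0 Λ) (WS c l (Λ - l))
    have a2 := measureReal_union_le (μ := JJ c.μ Z) (WS c l Λ) G
    have b1 : (JJ c.μ Z).real (WS c 0 Λ) ≤ θ := hθ1
    have b2 : (JJ c.μ Z).real (WS c l (Λ - l)) ≤ θ := hθ2
    have b3 : (JJ c.μ Z).real (WS c l Λ) ≤ θ := hθ3
    linarith
  have hsub : c.FE Λ l n ⊆ ⋃ q : Fin (n + 1) × Fin (n + 1),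
      {p : XX c.X (n + 1) | q.1 ≠ q.2 ∧ (p.2.1 q.1, p.2.1 q.2) ∈ S} := by
    rintro p ⟨a, b, hab, h1⟩
    refine Set.mem_iUnion.2 ⟨(a, b), hab, ?_⟩
    rcases h1 with h1 | h1 | h1 | h1
    · exact Or.inl (Or.inl h1)
    · exact Or.inl (Or.inr h1)
    · exact Or.inr (Or.inl h1)
    · exact Or.inr (Or.inr h1)
  have hone : ∀ q : Fin (n + 1) × Fin (n + 1), (PX c.μ Z (n + 1) R).real
      {p : XX c.X (n + 1) | q.1 ≠ q.2 ∧ (p.2.1 q.1, p.2.1 q.2) ∈ S} ≤ 3 * θ := by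
    intro q
    by_cases hab : q.1 = q.2
    · have h0 : {p : XX c.X (n + 1) | q.1 ≠ q.2 ∧ (p.2.1 q.1, p.2.1 q.2) ∈ S} = ∅ := by
        ext p
        simp [hab]
      rw [h0, measureReal_empty]
      positivity
    · have hmp := (hq q.1 q.2 hab).comp hp.2.2.1
      have h0 : {p : XX c.X (n + 1) | q.1 ≠ q.2 ∧ (p.2.1 q.1, p.2.1 q.2) ∈ S} =
          ((fun r : XN c.X (n + 1) => (r.2 q.1, r.2 q.2)) ∘ prX c.X (n + 1)) ⁻¹' S := by
        ext p
        exact ⟨fun h => h.2, fun h => ⟨hab, h⟩⟩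
      rw [h0, measureReal_def, hmp.measure_preimage hSm.nullMeasurableSet]
      exact hSθ
  calc (PX c.μ Z (n + 1) R).real (c.FE Λ l n)
      ≤ (PX c.μ Z (n + 1) R).real (⋃ q : Fin (n + 1) × Fin (n + 1),
        {p : XX c.X (n + 1) | q.1 ≠ q.2 ∧ (p.2.1 q.1, p.2.1 q.2) ∈ S}) :=
        measureReal_mono hsub
    _ ≤ ∑ q : Fin (n + 1) × Fin (n + 1), (PX c.μ Z (n + 1) R).real
        {p : XX c.X (n + 1) | q.1 ≠ q.2 ∧ (p.2.1 q.1, p.2.1 q.2) ∈ S} :=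
        measureReal_iUnion_fintype_le _
    _ ≤ ∑ _q : Fin (n + 1) × Fin (n + 1), 3 * θ := Finset.sum_le_sum fun q _ => hone q
    _ = 3 * ((n : ℝ) + 1) ^ 2 * θ := by
        rw [Finset.sum_const, Finset.card_univ, Fintype.card_prod, Fintype.card_fin, nsmul_eq_mul]
        push_cast
        ring

end Pool.Agent.H84.V
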